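import Mathlib
import Pool.Agent.N792.Defs

/-!
# The quadratic symbols of the discriminants `b ^ 2 - 4 a c`

The number of roots modulo a prime, the sum over `c` in an interval of the product of two
symbols, and the mean square over `c` of a sum over primes.
-/

set_option autoImplicit false

namespace Pool.Agent.N792

open Finset Filter Topology

/-- The quadratic symbol of the discriminant. -/
noncomputable def chiD (a b : ℤ) (c : ℕ) (p : ℕ) : ℤ := jacobiSym (b ^ 2 - 4 * a * c) p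

lemma rho_card (a b c : ℤ) (p : ℕ) [Fact p.Prime] :
    rho a b c p =
      #(univ.filter (fun x : ZMod p => (a : ZMod p) * x ^ 2 + (b : ZMod p) * x + (c : ZMod p) = 0)) := by
  have hp : p ≠ 0 := (Fact.out : p.Prime).ne_zero
  have : NeZero p := ⟨hp⟩
  unfold rho fv
  refine Finset.card_bij' (fun r _ => (r : ZMod p)) (fun x _ => x.val) ?_ ?_ ?_ ?_
  · intro r hr
    have h := (mem_filter.mp hr).2
    rw [← ZMod.intCast_zmod_eq_zero_iff_dvd] at h
    refine mem_filter.mpr ⟨mem_univ _, ?_⟩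
    push_cast at h
    exact h
  · intro x hx
    have h := (mem_filter.mp hx).2
    refine mem_filter.mpr ⟨mem_range.mpr (ZMod.val_lt x), ?_⟩
    rw [← ZMod.intCast_zmod_eq_zero_iff_dvd]
    push_cast
    rw [ZMod.natCast_zmod_val]
    exact h
  · intro r hr
    exact ZMod.val_cast_of_lt (mem_range.mp (mem_filter.mp hr).1)
  · intro x _
    exact ZMod.natCast_zmod_val x

lemma rho_eq (a b c : ℤ) (p : ℕ) (hp : p.Prime) (h2 : ¬ (p : ℤ) ∣ 2 * a) :
    (rho a b c p : ℤ) = 1 + jacobiSym (b ^ 2 - 4 * a * c) p := by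
  have : Fact p.Prime := ⟨hp⟩
  have hp2 : p ≠ 2 := by
    rintro rfl
    exact h2 (Dvd.intro a rfl)
  have h2a : (2 * a : ZMod p) ≠ 0 := by
    intro h
    apply h2
    rw [← ZMod.intCast_zmod_eq_zero_iff_dvd]
    push_cast
    exact h
  have h20 : (2 : ZMod p) ≠ 0 := left_ne_zero_of_mul h2a
  have ha0 : (a : ZMod p) ≠ 0 := right_ne_zero_of_mul h2a
  rw [← jacobiSym.legendreSym.to_jacobiSym, add_comm, ← legendreSym.card_sqrts p hp2, rho_card]
  norm_cast
  refine Finset.card_bij' (fun x _ => 2 * (a : ZMod p) * x + b)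
    (fun y _ => (2 * (a : ZMod p))⁻¹ * (y - b)) ?_ ?_ ?_ ?_
  · intro x hx
    have h := (mem_filter.mp hx).2
    rw [Set.mem_toFinset]
    show (2 * (a : ZMod p) * x + b) ^ 2 = _
    push_cast
    linear_combination (4 * (a : ZMod p)) * h
  · intro y hy
    have h' := Set.mem_toFinset.mp hy
    have h : y ^ 2 = ((b ^ 2 - 4 * a * c : ℤ) : ZMod p) := h'
    push_cast at h
    refine mem_filter.mpr ⟨mem_univ _, ?_⟩
    have h3 : (4 * (a : ZMod p)) ≠ 0 := by
      have : (4 : ZMod p) = 2 * 2 := by norm_num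
      rw [this]
      exact mul_ne_zero (mul_ne_zero h20 h20) ha0
    apply mul_left_cancel₀ h3
    field_simp
    linear_combination 4 * h
  · intro x _
    field_simp
    ring
  · intro y _
    field_simp
    ring

/-- The complete sum of one symbol. -/
lemma sum_quad (a b : ℤ) (p : ℕ) [Fact p.Prime] (h2 : ¬ (p : ℤ) ∣ 2 * a) :
    ∑ x : ZMod p, quadraticChar (ZMod p) ((b : ZMod p) ^ 2 - 4 * a * x) = 0 := by
  have hp2 : p ≠ 2 := by
    rintro rfl
    exact h2 (Dvd.intro a rfl)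
  have h2a : (2 * a : ZMod p) ≠ 0 := by
    intro h
    apply h2
    rw [← ZMod.intCast_zmod_eq_zero_iff_dvd]
    push_cast
    exact h
  have h20 : (2 : ZMod p) ≠ 0 := left_ne_zero_of_mul h2a
  have ha0 : (a : ZMod p) ≠ 0 := right_ne_zero_of_mul h2a
  have h3 : (4 * (a : ZMod p)) ≠ 0 := by
    have : (4 : ZMod p) = 2 * 2 := by norm_num
    rw [this]
    exact mul_ne_zero (mul_ne_zero h20 h20) ha0
  rw [← quadraticChar_sum_zero (F := ZMod p) ((ZMod.ringChar_zmod_n p).substr hp2)]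
  refine Fintype.sum_bijective (fun x : ZMod p => (b : ZMod p) ^ 2 - 4 * a * x) ?_ _ _ fun x => rfl
  refine (Finite.injective_iff_bijective).mp fun x y hxy => ?_
  have hxy' : (b : ZMod p) ^ 2 - 4 * a * x = (b : ZMod p) ^ 2 - 4 * a * y := hxy
  exact mul_left_cancel₀ h3 (by linear_combination -hxy')

lemma chiD_eq (a b : ℤ) (c : ℕ) (p : ℕ) [Fact p.Prime] :
    chiD a b c p = quadraticChar (ZMod p) ((b : ZMod p) ^ 2 - 4 * a * (c : ZMod p)) := by
  unfold chiD
  rw [← jacobiSym.legendreSym.to_jacobiSym, legendreSym]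
  push_cast
  rfl

/-- The complete sum of the product of two symbols. -/
lemma sum_pair (a b : ℤ) (p q : ℕ) (hp : p.Prime) (hq : q.Prime) (hpq : p ≠ q)
    (h2 : ¬ (p : ℤ) ∣ 2 * a) :
    ∑ c ∈ range (p * q), chiD a b c p * chiD a b c q = 0 := by
  have : Fact p.Prime := ⟨hp⟩
  have : Fact q.Prime := ⟨hq⟩
  have hco : p.Coprime q := (Nat.coprime_primes hp hq).mpr hpq
  have : NeZero (p * q) := ⟨mul_ne_zero hp.ne_zero hq.ne_zero⟩
  have h1 : ∑ c ∈ range (p * q), chiD a b c p * chiD a b c q =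
      ∑ x : ZMod (p * q), quadraticChar (ZMod p)
        ((b : ZMod p) ^ 2 - 4 * a * (ZMod.chineseRemainder hco x).1) *
        quadraticChar (ZMod q) ((b : ZMod q) ^ 2 - 4 * a * (ZMod.chineseRemainder hco x).2) := by
    refine Finset.sum_bij' (fun r _ => (r : ZMod (p * q))) (fun x _ => x.val) ?_ ?_ ?_ ?_ ?_
    · intro r _; exact mem_univ _
    · intro x _; exact mem_range.mpr (ZMod.val_lt x)
    · intro r hr; exact ZMod.val_cast_of_lt (mem_range.mp hr)
    · intro x _; exact ZMod.natCast_zmod_val x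
    · intro r _
      rw [chiD_eq, chiD_eq]
      simp
  rw [h1]
  have h3 : ∑ x : ZMod (p * q), quadraticChar (ZMod p)
        ((b : ZMod p) ^ 2 - 4 * a * (ZMod.chineseRemainder hco x).1) *
        quadraticChar (ZMod q) ((b : ZMod q) ^ 2 - 4 * a * (ZMod.chineseRemainder hco x).2) =
      ∑ x : ZMod p × ZMod q, quadraticChar (ZMod p) ((b : ZMod p) ^ 2 - 4 * a * x.1) *
        quadraticChar (ZMod q) ((b : ZMod q) ^ 2 - 4 * a * x.2) :=
    Fintype.sum_equiv (ZMod.chineseRemainder hco).toEquiv _ _ fun x => rfl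
  rw [h3, Fintype.sum_prod_type]
  simp only
  rw [← Finset.sum_mul_sum, sum_quad a b p h2, zero_mul]

lemma chiD_add (a b : ℤ) (c : ℕ) (p n : ℕ) [Fact p.Prime] (hpn : p ∣ n) :
    chiD a b (n + c) p = chiD a b c p := by
  rw [chiD_eq, chiD_eq]
  push_cast
  rw [(ZMod.natCast_eq_zero_iff n p).mpr hpn, zero_add]

/-- A sum of a periodic function whose sum over a period vanishes. -/
lemma periodic_sum (h : ℕ → ℤ) (n : ℕ) (hn : 0 < n) (hper : ∀ c, h (n + c) = h c)
    (h0 : ∑ c ∈ range n, h c = 0) (h1 : ∀ c, |h c| ≤ 1) (C : ℕ) :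
    |∑ c ∈ range C, h c| ≤ n := by
  induction C using Nat.strong_induction_on with
  | _ C ih =>
    by_cases hC : C < n
    · calc |∑ c ∈ range C, h c| ≤ ∑ c ∈ range C, |h c| := Finset.abs_sum_le_sum_abs _ _
        _ ≤ ∑ c ∈ range C, 1 := Finset.sum_le_sum fun c _ => h1 c
        _ = C := by simp
        _ ≤ n := by exact_mod_cast hC.le
    · obtain ⟨D, rfl⟩ := Nat.exists_eq_add_of_le (not_lt.mp hC)
      rw [Finset.sum_range_add, h0, zero_add, Finset.sum_congr rfl fun c _ => hper c]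
      exact ih D (by omega)

lemma abs_chiD_le (a b : ℤ) (c p : ℕ) : |chiD a b c p| ≤ 1 := by
  unfold chiD
  rcases jacobiSym.trichotomy (b ^ 2 - 4 * a * c) p with h | h | h <;> rw [h] <;> norm_num

/-- The incomplete sum of the product of two symbols. -/
lemma sum_pair_le (a b : ℤ) (p q : ℕ) (hp : p.Prime) (hq : q.Prime) (hpq : p ≠ q)
    (h2 : ¬ (p : ℤ) ∣ 2 * a) (C : ℕ) :
    |∑ c ∈ Icc 1 C, chiD a b c p * chiD a b c q| ≤ p * q + 1 := by
  have : Fact p.Prime := ⟨hp⟩
  have : Fact q.Prime := ⟨hq⟩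
  have hb : ∀ c, |chiD a b c p * chiD a b c q| ≤ 1 := fun c => by
    rw [abs_mul]
    exact mul_le_one₀ (abs_chiD_le a b c p) (abs_nonneg _) (abs_chiD_le a b c q)
  have h1 := periodic_sum (fun c => chiD a b c p * chiD a b c q) (p * q)
    (Nat.mul_pos hp.pos hq.pos) (fun c => by
      rw [chiD_add a b c p _ (dvd_mul_right p q), chiD_add a b c q _ (dvd_mul_left q p)])
    (sum_pair a b p q hp hq hpq h2) hb (C + 1)
  have h3 : ∑ c ∈ range (C + 1), chiD a b c p * chiD a b c q =
      chiD a b 0 p * chiD a b 0 q + ∑ c ∈ Icc 1 C, chiD a b c p * chiD a b c q := by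
    rw [Finset.sum_range_succ', add_comm]
    congr 1
    rw [Finset.range_eq_Ico,
      Finset.sum_Ico_add' (fun c => chiD a b c p * chiD a b c q) 0 C 1]
    refine Finset.sum_congr ?_ fun _ _ => rfl
    ext x
    simp only [mem_Ico, mem_Icc]
    omega
  have h4 := hb 0
  rw [h3] at h1
  push_cast at h1
  have h5 := abs_sub (chiD a b 0 p * chiD a b 0 q + ∑ c ∈ Icc 1 C, chiD a b c p * chiD a b c q)
    (chiD a b 0 p * chiD a b 0 q)
  rw [add_sub_cancel_left] at h5
  linarith

end Pool.Agent.N792
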