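import Mathlib
import Pool.Agent.N670.Sing.Chi

/-!
# The mean square of the sum over primes, and the product over primes
-/

set_option autoImplicit false

namespace Pool.Agent.N792

open Finset Filter Topology

/-- The sum of `χ(p) / (p - 1)` over the primes `w < p ≤ z`. -/
noncomputable def SS (a b : ℤ) (c w z : ℕ) : ℝ :=
  ∑ p ∈ (Ioc w z).filter Nat.Prime, (chiD a b c p : ℝ) / ((p : ℝ) - 1)

lemma not_dvd (a : ℤ) (ha : 0 < a) (w p : ℕ) (hw : 2 * a < w) (hp : w < p) : ¬ (p : ℤ) ∣ 2 * a := by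
  intro h
  have h1 := Int.le_of_dvd (by omega) h
  have h2 : (w : ℤ) < p := by exact_mod_cast hp
  omega

lemma sum_inv_sq (w z : ℕ) (hw : 1 ≤ w) :
    ∑ p ∈ (Ioc w z).filter Nat.Prime, (1 / ((p : ℝ) - 1)) ^ 2 ≤ 2 / (w : ℝ) := by
  have hw0 : (0 : ℝ) < w := by exact_mod_cast hw
  rcases le_or_gt z w with hz | hz
  · rw [Ioc_eq_empty (by omega), filter_empty, sum_empty]; positivity
  have h1 : ∑ p ∈ (Ioc w z).filter Nat.Prime, (1 / ((p : ℝ) - 1)) ^ 2 ≤
      ∑ p ∈ Ioc w z, (1 / ((p : ℝ) - 1)) ^ 2 :=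
    sum_le_sum_of_subset_of_nonneg (filter_subset _ _) fun _ _ _ => by positivity
  have h2 : ∀ z : ℕ, w < z → ∑ p ∈ Ioc w z, (1 / ((p : ℝ) - 1)) ^ 2 ≤ 2 / (w : ℝ) - 1 / ((z : ℝ) - 1) := by
    intro z hz
    induction z, hz using Nat.le_induction with
    | base =>
      have : Ioc w w.succ = {w + 1} := by ext x; simp only [mem_Ioc, mem_singleton]; omega
      rw [this, sum_singleton]
      push_cast
      rw [add_sub_cancel_right]
      have h3 : (1 / (w : ℝ)) ^ 2 ≤ 1 / w := by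
        have h4 : 1 / (w : ℝ) ≤ 1 := by
          rw [div_le_one hw0]; exact_mod_cast hw
        have h5 : (0 : ℝ) ≤ 1 / w := by positivity
        nlinarith
      have h6 : (2 : ℝ) / w = 1 / w + 1 / w := by ring
      linarith
    | succ z hz ih =>
      have : Ioc w (z + 1) = insert (z + 1) (Ioc w z) := by
        ext x; simp only [mem_Ioc, mem_insert]; omega
      rw [this, sum_insert (by simp)]
      have hz0 : (1 : ℝ) < z := by
        have : 1 < z := by omega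
        exact_mod_cast this
      push_cast
      rw [add_sub_cancel_right]
      have h3 : (1 / (z : ℝ)) ^ 2 ≤ 1 / ((z : ℝ) - 1) - 1 / z := by
        rw [div_sub_div _ _ (by linarith) (by linarith), div_pow, div_le_div_iff₀ (by positivity)
          (mul_pos (by linarith) (by linarith))]
        nlinarith
      linarith
  have h3 := h2 z hz
  have h4 : (0 : ℝ) ≤ 1 / ((z : ℝ) - 1) := by
    have : (1 : ℝ) < z := by
      have : 1 < z := by omega
      exact_mod_cast this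
    exact div_nonneg zero_le_one (by linarith)
  linarith

/-- The mean square. -/
lemma mean_sq (a : ℤ) (ha : 0 < a) (b : ℤ) (w z C : ℕ) (hw : 2 * a < w) :
    ∑ c ∈ Icc 1 C, SS a b c w z ^ 2 ≤ 2 * C / w + 5 * (z : ℝ) ^ 2 := by
  have hw1 : 1 ≤ w := by omega
  set P := (Ioc w z).filter Nat.Prime with hP
  have h1 : ∑ c ∈ Icc 1 C, SS a b c w z ^ 2 =
      ∑ p ∈ P, ∑ q ∈ P, (1 / ((p : ℝ) - 1)) * (1 / ((q : ℝ) - 1)) *
        ((∑ c ∈ Icc 1 C, chiD a b c p * chiD a b c q : ℤ) : ℝ) := by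
    simp only [SS, ← hP]
    have : ∀ c ∈ Icc 1 C, (∑ p ∈ P, (chiD a b c p : ℝ) / ((p : ℝ) - 1)) ^ 2 =
        ∑ p ∈ P, ∑ q ∈ P, (1 / ((p : ℝ) - 1)) * (1 / ((q : ℝ) - 1)) *
          ((chiD a b c p * chiD a b c q : ℤ) : ℝ) := by
      intro c _
      rw [pow_two, sum_mul_sum]
      refine sum_congr rfl fun p _ => sum_congr rfl fun q _ => ?_
      push_cast
      ring
    rw [sum_congr rfl this, sum_comm]
    refine sum_congr rfl fun p _ => ?_
    rw [sum_comm]
    refine sum_congr rfl fun q _ => ?_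
    rw [← mul_sum]
    push_cast
    rfl
  have hp1 : ∀ p ∈ P, (1 : ℝ) ≤ (p : ℝ) - 1 := by
    intro p hp
    have : 2 ≤ p := (mem_filter.mp hp).2.two_le
    have : (2 : ℝ) ≤ p := by exact_mod_cast this
    linarith
  have h2 : ∀ p ∈ P, ∀ q ∈ P, (1 / ((p : ℝ) - 1)) * (1 / ((q : ℝ) - 1)) *
        ((∑ c ∈ Icc 1 C, chiD a b c p * chiD a b c q : ℤ) : ℝ) ≤
      (if p = q then (1 / ((p : ℝ) - 1)) ^ 2 * C else 0) + 5 := by
    intro p hp q hq
    have hpp := (mem_filter.mp hp).2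
    have hqq := (mem_filter.mp hq).2
    have hpw := (mem_Ioc.mp (mem_filter.mp hp).1).1
    have hp2 := hp1 p hp
    have hq2 := hp1 q hq
    have hpi : 1 / ((p : ℝ) - 1) ≤ 1 := (div_le_one (by linarith)).mpr hp2
    have hqi : 1 / ((q : ℝ) - 1) ≤ 1 := (div_le_one (by linarith)).mpr hq2
    have hpi0 : 0 ≤ 1 / ((p : ℝ) - 1) := div_nonneg zero_le_one (by linarith)
    have hqi0 : 0 ≤ 1 / ((q : ℝ) - 1) := div_nonneg zero_le_one (by linarith)
    split_ifs with hpq
    · subst hpq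
      have h3 : ((∑ c ∈ Icc 1 C, chiD a b c p * chiD a b c p : ℤ) : ℝ) ≤ C := by
        have : ∑ c ∈ Icc 1 C, chiD a b c p * chiD a b c p ≤ ∑ c ∈ Icc 1 C, (1 : ℤ) := by
          refine sum_le_sum fun c _ => ?_
          have h4 := abs_chiD_le a b c p
          have h5 := abs_le.mp h4
          nlinarith [abs_nonneg (chiD a b c p), sq_abs (chiD a b c p)]
        simp only [sum_const, Nat.card_Icc, add_tsub_cancel_right, nsmul_eq_mul, mul_one] at this
        exact_mod_cast this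
      have h4 : (1 / ((p : ℝ) - 1)) * (1 / ((p : ℝ) - 1)) *
          ((∑ c ∈ Icc 1 C, chiD a b c p * chiD a b c p : ℤ) : ℝ) ≤
          (1 / ((p : ℝ) - 1)) * (1 / ((p : ℝ) - 1)) * C :=
        mul_le_mul_of_nonneg_left h3 (by positivity)
      nlinarith
    · have h3 := sum_pair_le a b p q hpp hqq hpq (not_dvd a ha w p hw hpw) C
      have h4 : ((∑ c ∈ Icc 1 C, chiD a b c p * chiD a b c q : ℤ) : ℝ) ≤ p * q + 1 := by
        have := (abs_le.mp h3).2
        exact_mod_cast this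
      have h5 : (1 / ((p : ℝ) - 1)) * (1 / ((q : ℝ) - 1)) *
          ((∑ c ∈ Icc 1 C, chiD a b c p * chiD a b c q : ℤ) : ℝ) ≤
          (1 / ((p : ℝ) - 1)) * (1 / ((q : ℝ) - 1)) * (p * q + 1) :=
        mul_le_mul_of_nonneg_left h4 (by positivity)
      have h6 : (1 / ((p : ℝ) - 1)) * (1 / ((q : ℝ) - 1)) * (p * q + 1) ≤ 5 := by
        have hpx : (p : ℝ) * (1 / ((p : ℝ) - 1)) = 1 + 1 / ((p : ℝ) - 1) := by
          have : (p : ℝ) - 1 ≠ 0 := by linarith
          field_simp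
          ring
        have hqx : (q : ℝ) * (1 / ((q : ℝ) - 1)) = 1 + 1 / ((q : ℝ) - 1) := by
          have : (q : ℝ) - 1 ≠ 0 := by linarith
          field_simp
          ring
        have h7 : (1 / ((p : ℝ) - 1)) * (1 / ((q : ℝ) - 1)) * (p * q + 1) =
            (p * (1 / ((p : ℝ) - 1))) * (q * (1 / ((q : ℝ) - 1))) +
              (1 / ((p : ℝ) - 1)) * (1 / ((q : ℝ) - 1)) := by ring
        rw [h7, hpx, hqx]
        nlinarith [mul_nonneg hpi0 hqi0, mul_le_one₀ hpi hqi0 hqi]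
      linarith
  have hcard : (#P : ℝ) ≤ z := by
    have : #P ≤ z := by
      refine (card_le_card (filter_subset _ _)).trans ?_
      rw [Nat.card_Ioc]; omega
    exact_mod_cast this
  rw [h1]
  calc ∑ p ∈ P, ∑ q ∈ P, (1 / ((p : ℝ) - 1)) * (1 / ((q : ℝ) - 1)) *
        ((∑ c ∈ Icc 1 C, chiD a b c p * chiD a b c q : ℤ) : ℝ)
      ≤ ∑ p ∈ P, ∑ q ∈ P, ((if p = q then (1 / ((p : ℝ) - 1)) ^ 2 * C else 0) + 5) :=
        sum_le_sum fun p hp => sum_le_sum fun q hq => h2 p hp q hq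
    _ = (∑ p ∈ P, (1 / ((p : ℝ) - 1)) ^ 2) * C + 5 * (#P : ℝ) ^ 2 := by
        simp only [sum_add_distrib, sum_ite_eq, sum_const, nsmul_eq_mul]
        rw [sum_congr rfl fun p hp => if_pos hp, sum_mul]
        ring
    _ ≤ 2 * C / w + 5 * (z : ℝ) ^ 2 := by
        have h7 := sum_inv_sq w z hw1
        have h8 : (∑ p ∈ P, (1 / ((p : ℝ) - 1)) ^ 2) * C ≤ 2 / (w : ℝ) * C :=
          mul_le_mul_of_nonneg_right h7 (Nat.cast_nonneg C)
        have h9 : (#P : ℝ) ^ 2 ≤ (z : ℝ) ^ 2 := pow_le_pow_left₀ (Nat.cast_nonneg _) hcard 2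
        have : (2 : ℝ) / w * C = 2 * C / w := by ring
        linarith

end Pool.Agent.N792
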