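import Mathlib
import Pool.Agent.N670.Sing.Sq

/-!
# Products over primes and exceptional sets
-/

set_option autoImplicit false

namespace Pool.Agent.N792

open Finset Filter Topology

/-- The product of `1 - χ(p) / (p - 1)` over the primes `w < p ≤ z`. -/
noncomputable def PP (a b : ℤ) (c w z : ℕ) : ℝ :=
  ∏ p ∈ (Ioc w z).filter Nat.Prime, (1 - (chiD a b c p : ℝ) / ((p : ℝ) - 1))

lemma filter_union (w z : ℕ) (h : w ≤ z) :
    (Icc 1 z).filter Nat.Prime = (Icc 1 w).filter Nat.Prime ∪ (Ioc w z).filter Nat.Prime := by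
  ext p
  simp only [mem_filter, mem_Icc, mem_union, mem_Ioc]
  constructor
  · rintro ⟨h1, h2⟩
    by_cases h3 : p ≤ w
    · exact Or.inl ⟨⟨h1.1, h3⟩, h2⟩
    · exact Or.inr ⟨⟨by omega, h1.2⟩, h2⟩
  · rintro (⟨h1, h2⟩ | ⟨h1, h2⟩)
    · exact ⟨⟨h1.1, by omega⟩, h2⟩
    · exact ⟨⟨h2.one_lt.le, h1.2⟩, h2⟩

lemma filter_disj (w z : ℕ) :
    Disjoint ((Icc 1 w).filter Nat.Prime) ((Ioc w z).filter Nat.Prime) := by
  rw [Finset.disjoint_left]
  intro p h1 h2
  have h3 := mem_Icc.mp (mem_filter.mp h1).1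
  have h4 := mem_Ioc.mp (mem_filter.mp h2).1
  omega

lemma V1_pos (z : ℕ) : 0 < V1 z := by
  unfold V1
  refine prod_pos fun p hp => ?_
  have h1 : (2 : ℝ) ≤ p := by exact_mod_cast (mem_filter.mp hp).2.two_le
  rw [sub_pos, div_lt_one (by linarith)]
  linarith

lemma V1_le_one (z : ℕ) : V1 z ≤ 1 := by
  unfold V1
  refine prod_le_one (fun p hp => ?_) (fun p hp => ?_)
  · have h1 : (2 : ℝ) ≤ p := by exact_mod_cast (mem_filter.mp hp).2.two_le
    rw [sub_nonneg, div_le_one (by linarith)]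
    linarith
  · have h1 : (0 : ℝ) ≤ 1 / p := by positivity
    linarith

lemma Vc_split (a : ℤ) (ha : 0 < a) (b : ℤ) (c w z : ℕ) (hw : 2 * a < w) (hz : w ≤ z) :
    Vc a b c z * V1 w = Vc a b c w * V1 z * PP a b c w z := by
  unfold Vc V1 PP
  rw [filter_union w z hz, prod_union (filter_disj w z), prod_union (filter_disj w z)]
  have h1 : ∏ p ∈ (Ioc w z).filter Nat.Prime, (1 - (rho a b c p : ℝ) / p) =
      (∏ p ∈ (Ioc w z).filter Nat.Prime, (1 - 1 / (p : ℝ))) *
        ∏ p ∈ (Ioc w z).filter Nat.Prime, (1 - (chiD a b c p : ℝ) / ((p : ℝ) - 1)) := by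
    rw [← prod_mul_distrib]
    refine prod_congr rfl fun p hp => ?_
    have hpp := (mem_filter.mp hp).2
    have hpw := (mem_Ioc.mp (mem_filter.mp hp).1).1
    have h2 := rho_eq a b c p hpp (not_dvd a ha w p hw hpw)
    have h3 : (rho a b c p : ℝ) = 1 + (chiD a b c p : ℝ) := by
      unfold chiD
      exact_mod_cast h2
    have h4 : (2 : ℝ) ≤ p := by exact_mod_cast hpp.two_le
    have h5 : (p : ℝ) - 1 ≠ 0 := by linarith
    have h6 : (p : ℝ) ≠ 0 := by linarith
    rw [h3]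
    field_simp
    ring
  rw [h1]
  ring

lemma exp_le (u : ℝ) (h1 : |u| ≤ 1 / 2) : Real.exp (-u - u ^ 2) ≤ 1 - u := by
  have h2 := abs_le.mp h1
  rcases le_total 0 u with hu | hu
  · have h3 := Real.quadratic_le_exp_of_nonneg (x := u + u ^ 2) (by positivity)
    have h4 : Real.exp (-u - u ^ 2) = (Real.exp (u + u ^ 2))⁻¹ := by
      rw [← Real.exp_neg]; congr 1; ring
    rw [h4, inv_le_comm₀ (Real.exp_pos _) (by linarith)]
    refine le_trans ?_ h3
    rw [inv_le_iff_one_le_mul₀ (by linarith)]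
    nlinarith [mul_nonneg hu hu, mul_nonneg (mul_nonneg hu hu) hu, mul_nonneg (mul_nonneg hu hu)
      (by linarith : 0 ≤ 1 / 2 - u), mul_nonneg (mul_nonneg (mul_nonneg hu hu) hu)
      (by linarith : 0 ≤ 1 / 2 - u)]
  · have h3 := Real.add_one_le_exp (u + u ^ 2)
    have h4 : Real.exp (-u - u ^ 2) = (Real.exp (u + u ^ 2))⁻¹ := by
      rw [← Real.exp_neg]; congr 1; ring
    rw [h4, inv_le_comm₀ (Real.exp_pos _) (by linarith)]
    refine le_trans ?_ h3
    rw [inv_le_iff_one_le_mul₀ (by linarith)]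
    nlinarith [mul_nonneg (mul_nonneg (neg_nonneg.mpr hu) (neg_nonneg.mpr hu)) (neg_nonneg.mpr hu)]

lemma abs_u (a b : ℤ) (c w p : ℕ) (hw : 2 ≤ w) (hp : w < p) :
    |(chiD a b c p : ℝ) / ((p : ℝ) - 1)| ≤ 1 / ((p : ℝ) - 1) ∧ 1 / ((p : ℝ) - 1) ≤ 1 / 2 := by
  have h1 : (3 : ℝ) ≤ p := by
    have : 3 ≤ p := by omega
    exact_mod_cast this
  have h2 : |(chiD a b c p : ℝ)| ≤ 1 := by
    have := abs_chiD_le a b c p
    exact_mod_cast this
  constructor
  · rw [abs_div, abs_of_pos (by linarith : (0 : ℝ) < (p : ℝ) - 1)]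
    exact div_le_div_of_nonneg_right h2 (by linarith)
  · exact one_div_le_one_div_of_le (by norm_num) (by linarith)

lemma PP_ge (a b : ℤ) (c w z : ℕ) (hw : 2 ≤ w) :
    Real.exp (-SS a b c w z - 2 / w) ≤ PP a b c w z := by
  have h1 : ∏ p ∈ (Ioc w z).filter Nat.Prime,
      Real.exp (-((chiD a b c p : ℝ) / ((p : ℝ) - 1)) - ((chiD a b c p : ℝ) / ((p : ℝ) - 1)) ^ 2) ≤
      PP a b c w z := by
    unfold PP
    refine prod_le_prod (fun p _ => (Real.exp_pos _).le) fun p hp => ?_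
    have h2 := abs_u a b c w p hw (mem_Ioc.mp (mem_filter.mp hp).1).1
    exact exp_le _ (h2.1.trans h2.2)
  refine le_trans ?_ h1
  rw [← Real.exp_sum]
  apply Real.exp_le_exp.mpr
  rw [sum_sub_distrib, sum_neg_distrib]
  have h3 := sum_inv_sq w z (by omega)
  have h4 : ∑ p ∈ (Ioc w z).filter Nat.Prime, ((chiD a b c p : ℝ) / ((p : ℝ) - 1)) ^ 2 ≤
      ∑ p ∈ (Ioc w z).filter Nat.Prime, (1 / ((p : ℝ) - 1)) ^ 2 := by
    refine sum_le_sum fun p hp => ?_
    have h2 := abs_u a b c w p hw (mem_Ioc.mp (mem_filter.mp hp).1).1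
    rw [← sq_abs]
    exact pow_le_pow_left₀ (abs_nonneg _) h2.1 2
  unfold SS
  linarith

lemma PP_le (a b : ℤ) (c w z : ℕ) (hw : 2 ≤ w) :
    PP a b c w z ≤ Real.exp (-SS a b c w z) := by
  unfold PP SS
  rw [← sum_neg_distrib, Real.exp_sum]
  refine prod_le_prod (fun p hp => ?_) fun p hp => ?_
  · have h2 := abs_u a b c w p hw (mem_Ioc.mp (mem_filter.mp hp).1).1
    have h3 := (abs_le.mp (h2.1.trans h2.2)).2
    linarith
  · have := Real.add_one_le_exp (-((chiD a b c p : ℝ) / ((p : ℝ) - 1)))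
    linarith

/-- The number of the `c` with a large sum. -/
lemma card_large (a : ℤ) (ha : 0 < a) (b : ℤ) (w z C : ℕ) (hw : 2 * a < w) (δ : ℝ) (hδ : 0 < δ) :
    (#((Icc 1 C).filter fun c => δ < |SS a b c w z|) : ℝ) * δ ^ 2 ≤
      2 * C / w + 5 * (z : ℝ) ^ 2 := by
  refine le_trans ?_ (mean_sq a ha b w z C hw)
  have h1 : (#((Icc 1 C).filter fun c => δ < |SS a b c w z|) : ℝ) * δ ^ 2 ≤
      ∑ c ∈ (Icc 1 C).filter (fun c => δ < |SS a b c w z|), SS a b c w z ^ 2 := by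
    rw [← nsmul_eq_mul]
    refine card_nsmul_le_sum _ _ _ fun c hc => ?_
    rw [← sq_abs (SS a b c w z)]
    exact pow_le_pow_left₀ hδ.le (mem_filter.mp hc).2.le 2
  refine h1.trans ?_
  exact sum_le_sum_of_subset_of_nonneg (filter_subset _ _) fun _ _ _ => sq_nonneg _

lemma rho_lt (a b c : ℤ) (h : Admissible a b c) (p : ℕ) (hp : p.Prime) : rho a b c p < p := by
  obtain ⟨-, hgcd, h2, -⟩ := h
  by_contra hcon
  push Not at hcon
  have h3 : (range p).filter (fun r : ℕ => (p : ℤ) ∣ fv a b c r) = range p := by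
    apply Finset.eq_of_subset_of_card_le (filter_subset _ _)
    rw [card_range]
    exact hcon
  have h4 : ∀ r < p, (p : ℤ) ∣ fv a b c r := fun r hr => by
    have : r ∈ (range p).filter (fun r : ℕ => (p : ℤ) ∣ fv a b c r) := by
      rw [h3]; exact mem_range.mpr hr
    exact (mem_filter.mp this).2
  have h0 := h4 0 hp.pos
  have h1 := h4 1 hp.one_lt
  simp only [fv, Nat.cast_zero, Nat.cast_one, ne_eq, OfNat.ofNat_ne_zero, not_false_eq_true,
    zero_pow, mul_zero, zero_add, one_pow, mul_one] at h0 h1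
  have hab : (p : ℤ) ∣ a + b := by
    have := dvd_sub h1 h0
    simpa using this
  rcases hp.eq_two_or_odd' with rfl | hodd
  · exact h2 ⟨by exact_mod_cast hab, by exact_mod_cast h0⟩
  · have hp3 : 2 < p := by
      rcases hp.two_le.lt_or_eq with h | h
      · exact h
      · exfalso; rw [← h] at hodd; exact absurd hodd (by decide)
    have h5 := h4 2 hp3
    simp only [fv, Nat.cast_ofNat] at h5
    have h6 : (p : ℤ) ∣ 2 * a := by
      have := dvd_sub (dvd_sub h5 h0) (hab.mul_left 2)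
      have h7 : a * 2 ^ 2 + b * 2 + c - c - 2 * (a + b) = 2 * a := by ring
      rwa [h7] at this
    have hpi : Prime (p : ℤ) := Nat.prime_iff_prime_int.mp hp
    have h8 : (p : ℤ) ∣ a := by
      rcases hpi.dvd_or_dvd h6 with h | h
      · exfalso
        have := Int.le_of_dvd (by norm_num) h
        omega
      · exact h
    have h9 : (p : ℤ) ∣ b := by
      have := dvd_sub hab h8
      simpa using this
    exact hpi.not_isUnit (hgcd p h8 h9 h0)

lemma Vc_ge (a b c : ℤ) (h : Admissible a b c) (w w0 : ℕ) (hw : w ≤ w0) :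
    1 / (4 : ℝ) ^ w0 ≤ Vc a b c w := by
  have h1 : ∏ p ∈ (Icc 1 w).filter Nat.Prime, (1 / (p : ℝ)) ≤ Vc a b c w := by
    unfold Vc
    refine prod_le_prod (fun p _ => by positivity) fun p hp => ?_
    have hpp := (mem_filter.mp hp).2
    have h2 := rho_lt a b c h p hpp
    have h3 : (rho a b c p : ℝ) + 1 ≤ p := by exact_mod_cast h2
    have h4 : (0 : ℝ) < p := by exact_mod_cast hpp.pos
    rw [div_le_iff₀ h4, sub_mul, div_mul_cancel₀ _ h4.ne']
    linarith
  refine le_trans ?_ h1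
  rw [prod_div_distrib, prod_const_one]
  have h5 : (Icc 1 w).filter Nat.Prime = (range (w + 1)).filter Nat.Prime := by
    ext p
    simp only [mem_filter, mem_Icc, mem_range]
    constructor
    · rintro ⟨h1, h2⟩; exact ⟨by omega, h2⟩
    · rintro ⟨h1, h2⟩; exact ⟨⟨h2.one_lt.le, by omega⟩, h2⟩
  have h6 : ∏ p ∈ (Icc 1 w).filter Nat.Prime, (p : ℝ) = (primorial w : ℝ) := by
    rw [h5, primorial]; push_cast; rfl
  rw [h6]
  have h7 : (primorial w : ℝ) ≤ 4 ^ w0 := by
    have h8 : primorial w ≤ 4 ^ w0 :=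
      (primorial_le_four_pow w).trans (Nat.pow_le_pow_right (by norm_num) hw)
    exact_mod_cast h8
  exact one_div_le_one_div_of_le (by exact_mod_cast primorial_pos w) h7

end Pool.Agent.N792
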